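import Pool.Agent.H30.Ind

set_option autoImplicit false

namespace Pool.Agent.Results.MP_fdfd6d_gt.Combs

open Set Filter Topology Metric Pool.Agent.H30

/-- The point `p` has order at most `n`. -/
def OrderLE {X : Type} [TopologicalSpace X] (p : X) (n : ℕ) : Prop :=
  ∀ W ∈ nhds p, ∃ U : Set X, IsOpen U ∧ p ∈ U ∧ U ⊆ W ∧ (frontier U).encard ≤ n

/-- A one-dimensional continuum all of whose points have order at most `n`. -/
def CurveOfOrderLE (X : Type) [MetricSpace X] (n : ℕ) : Prop :=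
  CompactSpace X ∧ ConnectedSpace X ∧ smallInductiveDimension X = 1 ∧ ∀ p : X, OrderLE p n

def Comb (a : ℝ) (h : ℝ → ℝ) : Set (ℝ × ℝ) := {p | p.1 ∈ Icc a 1 ∧ p.2 ∈ Icc 0 (h p.1)}

def Good (h : ℝ → ℝ) : Prop :=
  (∀ x, h x ∈ Icc 0 1) ∧ {x | h x ≠ 0}.Countable ∧
    ∀ x, ∃ δ > 0, ∀ x', x' ≠ x → |x' - x| < δ → h x' ≤ |x' - x|

lemma down {A : Set (ℝ × ℝ)} {a b : ℝ} (hab : a ≤ b) (h1 : ∀ x ∈ Icc a b, (x, 0) ∈ A)
    (h2 : ∀ p ∈ A, p.1 ∈ Icc a b ∧ 0 ≤ p.2 ∧ ∀ y ∈ Icc 0 p.2, (p.1, y) ∈ A) : IsConnected A := by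
  refine ⟨⟨_, h1 a (left_mem_Icc.2 hab)⟩, isPreconnected_of_forall (a, 0) fun p hp =>
    ⟨Icc a b ×ˢ {0} ∪ {p.1} ×ˢ Icc 0 p.2, ?_, Or.inl ⟨left_mem_Icc.2 hab, rfl⟩,
      Or.inr ⟨rfl, right_mem_Icc.2 (h2 p hp).2.1⟩, IsPreconnected.union (p.1, 0)
        ⟨(h2 p hp).1, rfl⟩ ⟨rfl, left_mem_Icc.2 (h2 p hp).2.1⟩
        (isPreconnected_Icc.prod isPreconnected_singleton)
        (isPreconnected_singleton.prod isPreconnected_Icc)⟩⟩
  rintro ⟨x, y⟩ (⟨h3, rfl⟩ | ⟨rfl, h3⟩)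
  · exact h1 x h3
  · exact (h2 p hp).2.2 y h3

lemma compact {a : ℝ} {h : ℝ → ℝ} (H : Good h) : IsCompact (Comb a h) := by
  have h1 : IsClosed {p : ℝ × ℝ | 0 ≤ p.2 → p.2 ≤ h p.1} := by
    refine ⟨isOpen_iff_mem_nhds.2 fun p hp => ?_⟩
    simp only [mem_compl_iff, mem_ofPred_eq, Classical.not_imp, not_le] at hp
    obtain ⟨δ, hδ, h2⟩ := H.2.2 p.1
    have h0 := (H.1 p.1).1
    refine mem_of_superset (ball_mem_nhds p (lt_min hδ (half_pos (sub_pos.2 hp.2)))) fun q hq h3 => ?_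
    simp only [mem_ball, Prod.dist_eq, lt_min_iff, max_lt_iff, Real.dist_eq] at hq
    have h4 := abs_lt.1 hq.2.2
    have h5 := h3 (by linarith [h4.1])
    by_cases e : q.1 = p.1
    · rw [e] at h5
      linarith [h4.1]
    · linarith [h2 _ e hq.1.1, hq.2.1, h4.1]
  convert ((isCompact_Icc (a := a) (b := 1)).prod (isCompact_Icc (a := (0:ℝ)) (b := 1))).inter_right h1
    using 1
  ext p
  exact ⟨fun hp => ⟨⟨hp.1, hp.2.1, hp.2.2.trans (H.1 _).2⟩, fun _ => hp.2.2⟩,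
    fun hp => ⟨hp.1.1, hp.1.2.1, hp.2 hp.1.2.1⟩⟩

lemma conn {a : ℝ} (ha : a ≤ 1) {h : ℝ → ℝ} (H : Good h) : IsConnected (Comb a h) :=
  down ha (fun x hx => ⟨hx, le_rfl, (H.1 x).1⟩) fun _ hp =>
    ⟨hp.1, hp.2.1, fun _ hy => ⟨hp.1, hy.1, hy.2.trans hp.2.2⟩⟩

lemma order {a : ℝ} {h : ℝ → ℝ} (H : Good h) (p : Comb a h) : OrderLE p 4 := by
  intro W hW
  obtain ⟨ε, hε, hW⟩ := Metric.mem_nhds_iff.1 hW
  obtain ⟨δ, hδ, h2⟩ := H.2.2 p.1.1
  obtain ⟨η, hη, h3⟩ : ∃ η > 0, p.1.2 = 0 ∨ 2 * η = p.1.2 := by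
    rcases p.2.2.1.eq_or_lt with e | e
    · exact ⟨1, one_pos, Or.inl e.symm⟩
    · exact ⟨p.1.2 / 2, half_pos e, Or.inr (by ring)⟩
  obtain ⟨ρ, h4, h5, h6⟩ := (H.2.1.image fun x => |x - p.1.1|).dense_compl ℝ |>.exists_between
    (lt_min hε (lt_min hδ hη))
  simp only [lt_min_iff] at h6
  refine ⟨ball p ρ, isOpen_ball, mem_ball_self h5, (ball_subset_ball h6.1.le).trans hW, ?_⟩
  refine (encard_le_encard frontier_ball_subset_sphere).trans ?_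
  rw [← Subtype.val_injective.encard_image]
  refine (encard_le_encard (t := {(p.1.1 + ρ, 0), (p.1.1 - ρ, 0), (p.1.1, p.1.2 + ρ),
    (p.1.1, p.1.2 - ρ)}) ?_).trans ?_
  · rintro _ ⟨⟨⟨x, y⟩, hq⟩, hs, rfl⟩
    have hs' : max |x - p.1.1| |y - p.1.2| = ρ := hs
    have h7 : y ∈ Icc 0 (h x) := hq.2
    simp only [mem_insert_iff, Prod.mk.injEq, mem_singleton_iff]
    rcases ((le_max_left _ _).trans_eq hs').eq_or_lt with e | e
    · have : h x = 0 := by_contra fun hn => h4 ⟨x, hn, e⟩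
      have h8 : y = 0 := le_antisymm (this ▸ h7.2) h7.1
      rcases abs_cases (x - p.1.1) with h9 | h9
      · exact Or.inl ⟨by linarith [h9.1], h8⟩
      · exact Or.inr (Or.inl ⟨by linarith [h9.1], h8⟩)
    · have h8 : |y - p.1.2| = ρ := by
        rcases max_choice |x - p.1.1| |y - p.1.2| with h9 | h9 <;> linarith
      have h9 : x = p.1.1 := by
        by_contra hn
        have := h2 x hn (e.trans h6.2.1)
        rcases abs_cases (y - p.1.2) with h9 | h9 <;> rcases h3 with h3 | h3 <;>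
          linarith [h9.1, h7.1, h7.2, h6.2.2]
      rcases abs_cases (y - p.1.2) with h10 | h10
      · exact Or.inr (Or.inr (Or.inl ⟨h9, by linarith [h10.1]⟩))
      · exact Or.inr (Or.inr (Or.inr ⟨h9, by linarith [h10.1]⟩))
  · refine (encard_insert_le _ _).trans ?_
    refine (add_le_add_left (encard_insert_le _ _) _).trans ?_
    refine (add_le_add_left (add_le_add_left (encard_insert_le _ _) _) _).trans ?_
    rw [encard_singleton]
    rfl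

lemma curve {a : ℝ} (ha : a < 1) {h : ℝ → ℝ} (H : Good h) : CurveOfOrderLE (Comb a h) 4 := by
  have hc := isConnected_iff_connectedSpace.1 (conn ha.le H)
  refine ⟨isCompact_iff_compactSpace.1 (compact H), hc, smallInductiveDimension_eq 1
    (ind_of_local fun x W hW => ?_) fun h1 => ?_, order H⟩
  · obtain ⟨U, h1, h2, h3, h4⟩ := order H x W hW
    exact ⟨U, h1, h2, h3, ind_finite (finite_of_encard_le_coe h4)⟩
  · obtain ⟨U, h2, h3, h4⟩ := (hasSmallInductiveDimensionLT_one_iff.1 h1).exists_subset_of_mem_open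
      (a := ⟨(a, 0), left_mem_Icc.2 ha.le, le_rfl, (H.1 _).1⟩)
      (u := {⟨(1, 0), right_mem_Icc.2 ha.le, le_rfl, (H.1 _).1⟩}ᶜ)
      (fun e => ha.ne (congrArg (fun p : Comb a h => p.1.1) e)) isOpen_compl_singleton
    exact h4 ((h2.eq_univ ⟨_, h3⟩).ge (mem_univ _)) rfl

open Classical in
noncomputable def τ (x : ℝ) : ℝ := if ∃ n : ℕ, x = (1 / 2) ^ n then x else 0

noncomputable def σ (x : ℝ) : ℝ := if x ≤ 0 then τ (x + 1) else τ x

lemma τ_pow (n : ℕ) : τ ((1 / 2) ^ n) = (1 / 2) ^ n := if_pos ⟨n, rfl⟩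

lemma τ_cases (x : ℝ) : τ x = 0 ∨ ∃ n : ℕ, x = (1 / 2) ^ n ∧ τ x = x := by
  by_cases h : ∃ n : ℕ, x = (1 / 2) ^ n
  · obtain ⟨n, rfl⟩ := h
    exact Or.inr ⟨n, rfl, τ_pow n⟩
  · exact Or.inl (if_neg h)

lemma τ_le {x : ℝ} (hx : 0 ≤ x) : τ x ≤ x := by
  rcases τ_cases x with h | ⟨n, -, h⟩ <;> linarith

lemma fin_pow {x : ℝ} (hx : 0 < x) : {n : ℕ | x ≤ (1 / 2) ^ n}.Finite := by
  obtain ⟨N, hN⟩ := exists_pow_lt_of_lt_one hx (show (1 / 2 : ℝ) < 1 by norm_num)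
  refine (finite_Iio N).subset fun n hn => mem_Iio.2 (not_le.1 fun h => hN.not_ge (le_trans hn ?_))
  exact pow_le_pow_of_le_one (by norm_num) (by norm_num) h

lemma gap {x : ℝ} (hx : x ≠ 0) : ∃ δ > 0, ∀ x', x' ≠ x → |x' - x| < δ → τ x' = 0 := by
  have h0 := half_pos (abs_pos.2 hx)
  obtain ⟨δ, hδ, h⟩ := Metric.mem_nhds_iff.1 ((((fin_pow h0).image fun n => (1 / 2 : ℝ) ^ n).subset
    (sdiff_subset (t := {x}))).isClosed.isOpen_compl.mem_nhds (x := x) fun h => h.2 rfl)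
  refine ⟨_, lt_min hδ h0, fun x' h1 h2 => ?_⟩
  rcases τ_cases x' with h3 | ⟨n, h3, -⟩
  · exact h3
  · refine absurd ⟨⟨n, ?_, h3.symm⟩, h1⟩ (h (h2.trans_le (min_le_left _ _)))
    have h4 := abs_lt.1 (h2.trans_le (min_le_right _ _))
    have h5 : 0 < x' := h3 ▸ by positivity
    show |x| / 2 ≤ _
    rcases abs_cases x with h6 | h6 <;> linarith [h6.1, h4.1, h4.2]

lemma good_τ : Good τ := by
  refine ⟨fun x => ?_, (countable_range fun n : ℕ => (1 / 2 : ℝ) ^ n).mono fun x hx => ?_,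
    fun x => ?_⟩
  · rcases τ_cases x with h | ⟨n, rfl, h⟩ <;> rw [h]
    · simp
    · exact ⟨by positivity, pow_le_one₀ (by norm_num) (by norm_num)⟩
  · obtain ⟨n, h, -⟩ := (τ_cases x).resolve_left hx
    exact ⟨n, h.symm⟩
  · rcases eq_or_ne x 0 with rfl | hx
    · refine ⟨1, one_pos, fun x' _ _ => ?_⟩
      rcases τ_cases x' with h | ⟨n, -, h⟩ <;> rw [h, sub_zero]
      · exact abs_nonneg _
      · exact le_abs_self _
    · obtain ⟨δ, hδ, h⟩ := gap hx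
      exact ⟨δ, hδ, fun x' h1 h2 => (h x' h1 h2).trans_le (abs_nonneg _)⟩

lemma good_σ : Good σ := by
  refine ⟨fun x => ?_, (good_τ.2.1.union (good_τ.2.1.preimage (add_left_injective 1))).mono
    fun x hx => ?_, fun x => ?_⟩
  · unfold σ
    split_ifs <;> exact good_τ.1 _
  · simp only [σ, mem_ofPred_eq] at hx
    split_ifs at hx
    · exact Or.inr hx
    · exact Or.inl hx
  · obtain ⟨δ, hδ, h⟩ := good_τ.2.2 x
    obtain ⟨δ', hδ', h'⟩ := good_τ.2.2 (x + 1)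
    refine ⟨_, lt_min hδ hδ', fun x' h1 h2 => ?_⟩
    unfold σ
    split_ifs
    · simpa using h' (x' + 1) (by simpa using h1) (by simpa using h2.trans_le (min_le_right _ _))
    · exact h x' h1 (h2.trans_le (min_le_left _ _))

abbrev X : Set (ℝ × ℝ) := Comb (-1) σ
abbrev Y : Set (ℝ × ℝ) := Comb 0 τ

lemma σ_pos {x : ℝ} (h : 0 < x) : σ x = τ x := if_neg h.not_ge
lemma σ_neg {x : ℝ} (h : x ≤ 0) : σ x = τ (x + 1) := if_pos h

def R (p : ℝ × ℝ) : ℝ × ℝ := (max p.1 0, min p.2 (max p.1 0))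

def F (c : ℝ) (p : ℝ × ℝ) : ℝ × ℝ := (c * (min p.1 0 + 1) + max (p.1 - c) 0,
  c * (p.2 - min p.2 (max p.1 0)) + min p.2 (max (2 * (p.1 - c)) 0))

lemma le_of_pos {p : ℝ × ℝ} (hp : p ∈ X) (h : 0 < p.1) : p.2 ≤ p.1 :=
  (hp.2.2.trans_eq (σ_pos h)).trans (τ_le h.le)

lemma R_neg {p : ℝ × ℝ} (hp : p ∈ X) (h : p.1 ≤ 0) : R p = (0, 0) := by
  simp [R, h, hp.2.1]

lemma R_pos {p : ℝ × ℝ} (h : 0 ≤ p.1) (h' : p.2 ≤ p.1) : R p = p := by
  simp [R, h, h']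

lemma F_neg (c : ℝ) (hc : 0 < c) {p : ℝ × ℝ} (hp : p ∈ X) (h : p.1 ≤ 0) :
    F c p = (c * (p.1 + 1), c * p.2) := by
  have h1 : p.1 - c ≤ 0 := by linarith
  have h2 : 2 * (p.1 - c) ≤ 0 := by linarith
  simp [F, h, hp.2.1, max_eq_right h1, max_eq_right h2]

lemma F_mid (c : ℝ) {p : ℝ × ℝ} (hp : p ∈ X) (h : 0 ≤ p.1) (h' : p.1 ≤ c) (h'' : p.2 ≤ p.1) :
    F c p = (c, 0) := by
  have h1 : p.1 - c ≤ 0 := by linarith
  have h2 : 2 * (p.1 - c) ≤ 0 := by linarith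
  simp [F, h, hp.2.1, max_eq_right h1, max_eq_right h2, h'']

lemma F_pos (N : ℕ) {p : ℝ × ℝ} (hp : p ∈ X) (h : (1 / 2) ^ N < p.1) :
    F ((1 / 2) ^ N) p = p := by
  have h0 : 0 < p.1 := lt_trans (by positivity) h
  have h1 := le_of_pos hp h0
  have h2 : p.2 ≤ 2 * (p.1 - (1 / 2) ^ N) := by
    rcases τ_cases p.1 with e | ⟨n, e, -⟩
    · linarith [hp.2.2.trans_eq (σ_pos h0)]
    · have h3 : n + 1 ≤ N := (pow_lt_pow_iff_right_of_lt_one₀ (by norm_num) (by norm_num)).1 (e ▸ h)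
      have h4 : (1 / 2 : ℝ) ^ N ≤ (1 / 2) ^ (n + 1) :=
        pow_le_pow_of_le_one (by norm_num) (by norm_num) h3
      rw [pow_succ, ← e] at h4
      linarith
  refine Prod.ext ?_ ?_
  · simp only [F, min_eq_right h0.le, max_eq_left (sub_pos.2 h).le]
    ring
  · simp only [F, max_eq_left h0.le, min_eq_left h1, min_eq_left (h2.trans (le_max_left _ _))]
    ring

lemma YX {p : ℝ × ℝ} (hp : p ∈ Y) (h : 0 < p.1) : p ∈ X :=
  ⟨⟨by linarith, hp.1.2⟩, hp.2.1, hp.2.2.trans_eq (σ_pos h).symm⟩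

lemma XY {p : ℝ × ℝ} (hp : p ∈ X) (h : 0 < p.1) : p ∈ Y :=
  ⟨⟨h.le, hp.1.2⟩, hp.2.1, hp.2.2.trans_eq (σ_pos h)⟩

lemma spine {a x : ℝ} {h : ℝ → ℝ} (H : Good h) (hx : x ∈ Icc a 1) : (x, 0) ∈ Comb a h :=
  ⟨hx, le_rfl, (H.1 x).1⟩

lemma R_mem {p : ℝ × ℝ} (hp : p ∈ X) : R p ∈ Y := by
  rcases le_or_gt p.1 0 with h | h
  · rw [R_neg hp h]
    exact spine good_τ (by simp)
  · rw [R_pos h.le (le_of_pos hp h)]
    exact XY hp h

lemma F_mem (N : ℕ) {p : ℝ × ℝ} (hp : p ∈ X) : F ((1 / 2) ^ N) p ∈ Y := by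
  have c0 : (0 : ℝ) < (1 / 2) ^ N := by positivity
  have c1 : (1 / 2 : ℝ) ^ N ≤ 1 := pow_le_one₀ (by norm_num) (by norm_num)
  rcases le_or_gt p.1 0 with h | h
  · rw [F_neg _ c0 hp h]
    have h1 := hp.1.1
    refine ⟨⟨by nlinarith, by nlinarith⟩, mul_nonneg c0.le hp.2.1, ?_⟩
    have h2 := hp.2.2.trans_eq (σ_neg h)
    rcases τ_cases (p.1 + 1) with e | ⟨n, e, e'⟩
    · rw [le_antisymm (h2.trans_eq e) hp.2.1, mul_zero]
      exact (good_τ.1 _).1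
    · show _ ≤ τ (_ * _)
      rw [e, ← pow_add, τ_pow, pow_add, ← e]
      exact mul_le_mul_of_nonneg_left (h2.trans_eq e') c0.le
  · rcases le_or_gt p.1 ((1 / 2) ^ N) with h' | h'
    · rw [F_mid _ hp h.le h' (le_of_pos hp h)]
      exact spine good_τ ⟨c0.le, c1⟩
    · rw [F_pos N hp h']
      exact XY hp h

lemma F_surj (N : ℕ) {q : ℝ × ℝ} (hq : q ∈ Y) : ∃ p ∈ X, F ((1 / 2) ^ N) p = q := by
  have c0 : (0 : ℝ) < (1 / 2) ^ N := by positivity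
  rcases le_or_gt q.1 ((1 / 2) ^ N) with h | h
  · have h1 : q.1 / (1 / 2) ^ N - 1 ≤ 0 := sub_nonpos.2 ((div_le_one c0).2 h)
    have h2 : (q.1 / (1 / 2) ^ N - 1, q.2 / (1 / 2) ^ N) ∈ X := by
      refine ⟨⟨by linarith [div_nonneg hq.1.1 c0.le], by linarith⟩, div_nonneg hq.2.1 c0.le, ?_⟩
      rw [σ_neg h1, sub_add_cancel]
      rcases τ_cases q.1 with e | ⟨n, e, e'⟩
      · rw [le_antisymm (hq.2.2.trans_eq e) hq.2.1, zero_div]
        exact (good_τ.1 _).1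
      · obtain ⟨m, rfl⟩ := Nat.exists_eq_add_of_le
          ((pow_le_pow_iff_right_of_lt_one₀ (by norm_num) (by norm_num)).1 (e ▸ h))
        have e2 : q.1 / (1 / 2) ^ N = (1 / 2) ^ m := by
          rw [e, pow_add, mul_div_cancel_left₀ _ c0.ne']
        rw [e2, τ_pow, ← e2]
        exact div_le_div_of_nonneg_right (hq.2.2.trans_eq e') c0.le
    refine ⟨_, h2, ?_⟩
    rw [F_neg _ c0 h2 h1, sub_add_cancel, mul_div_cancel₀ _ c0.ne', mul_div_cancel₀ _ c0.ne']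
  · exact ⟨q, YX hq (c0.trans h), F_pos N (YX hq (c0.trans h)) h⟩

def K (c : ℝ) : Set (ℝ × ℝ) := {p | p ∈ X ∧ 0 ≤ p.1 ∧ p.1 ≤ c ∧ p.2 ≤ p.1}

lemma F_inj (N : ℕ) {p q : ℝ × ℝ} (hp : p ∈ X) (hq : q ∈ X)
    (e : F ((1 / 2) ^ N) p = F ((1 / 2) ^ N) q) : p = q ∨ p ∈ K ((1 / 2) ^ N) := by
  have c0 : (0 : ℝ) < (1 / 2) ^ N := by positivity
  have tri : ∀ p ∈ X, F ((1 / 2) ^ N) p = ((1 / 2) ^ N * (p.1 + 1), (1 / 2) ^ N * p.2) ∧ p.1 ≤ 0 ∨
      F ((1 / 2) ^ N) p = ((1 / 2) ^ N, 0) ∧ p ∈ K ((1 / 2) ^ N) ∨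
      F ((1 / 2) ^ N) p = p ∧ (1 / 2) ^ N < p.1 := fun p hp => by
    rcases le_or_gt p.1 0 with h | h
    · exact Or.inl ⟨F_neg _ c0 hp h, h⟩
    · rcases le_or_gt p.1 ((1 / 2) ^ N) with h' | h'
      · exact Or.inr (Or.inl ⟨F_mid _ hp h.le h' (le_of_pos hp h), hp, h.le, h', le_of_pos hp h⟩)
      · exact Or.inr (Or.inr ⟨F_pos N hp h', h'⟩)
  rcases tri p hp with ⟨a, a'⟩ | ⟨a, a'⟩ | ⟨a, a'⟩
  · rcases tri q hq with ⟨b, b'⟩ | ⟨b, b'⟩ | ⟨b, b'⟩ <;> rw [a, b, Prod.ext_iff] at e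
    · exact Or.inl (Prod.ext (by nlinarith [e.1]) (by nlinarith [e.2]))
    · have h1 : p.1 = 0 := by nlinarith [e.1]
      have h2 : p.2 = 0 := by nlinarith [e.2]
      exact Or.inr ⟨hp, h1.ge, h1.trans_le c0.le, (h2.trans h1.symm).le⟩
    · nlinarith [e.1]
  · exact Or.inr a'
  · rcases tri q hq with ⟨b, b'⟩ | ⟨b, b'⟩ | ⟨b, b'⟩ <;> rw [a, b] at e
    · nlinarith [congrArg Prod.fst e]
    · linarith [congrArg Prod.fst e]
    · exact Or.inl e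

lemma cutY (p : Y) (h0 : 0 < p.1.1) (h1 : p.1.2 ≠ p.1.1) : ¬ IsPreconnected ({p}ᶜ : Set Y) := by
  intro hc
  obtain ⟨δ, hδ, h⟩ := gap h0.ne'
  let ψ : Y → ℝ := fun q => min q.1.2 (max 0 (1 - |q.1.1 - p.1.1| / δ))
  have hψ : Continuous ψ := by fun_prop
  have a1 : ∀ q : Y, q.1.1 = p.1.1 → ψ q = q.1.2 := fun q e => by
    simpa [ψ, e] using q.2.2.2.trans (good_τ.1 _).2
  have a2 : ∀ q : Y, q.1.1 ≠ p.1.1 → ψ q = 0 := fun q e => by
    rcases lt_or_ge |q.1.1 - p.1.1| δ with h2 | h2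
    · simp [ψ, le_antisymm (q.2.2.2.trans_eq (h _ e h2)) q.2.2.1]
    · simp [ψ, max_eq_left (sub_nonpos.2 ((one_le_div hδ).2 h2)), q.2.2.1]
  let o : Y := ⟨(0, 0), spine good_τ (by simp)⟩
  have ho : o ∈ ({p}ᶜ : Set Y) := fun e => h0.ne (congrArg (fun q : Y => q.1.1) e)
  have ho' : ψ o = 0 := a2 o h0.ne
  rcases p.2.2.1.eq_or_lt with e | e
  · let v : Y := ⟨(1, 1), by simp, zero_le_one, by simpa using (τ_pow 0).ge⟩
    obtain ⟨q, hq, hq'⟩ := hc.intermediate_value ho (b := v)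
      (fun e' => one_ne_zero ((congrArg (fun q : Y => q.1.2) e').trans e.symm))
      (f := fun q => q.1.1 + ψ q) (by fun_prop) (show p.1.1 ∈ _ from
        ⟨by simpa [ho', o] using h0.le, p.2.1.2.trans (le_add_of_nonneg_right
          (le_min zero_le_one (le_max_left _ _)))⟩)
    by_cases e' : q.1.1 = p.1.1
    · refine hq (Subtype.ext (Prod.ext e' ?_))
      simp only [a1 q e'] at hq'
      linarith
    · simp only [a2 q e'] at hq'
      exact e' (by linarith)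
  · have h2 : τ p.1.1 = p.1.1 := by
      rcases τ_cases p.1.1 with e' | ⟨n, -, e'⟩
      · linarith [p.2.2.2]
      · exact e'
    let v : Y := ⟨(p.1.1, p.1.1), p.2.1, h0.le, h2.ge⟩
    obtain ⟨q, hq, hq'⟩ := hc.intermediate_value ho (b := v)
      (fun e' => h1 (congrArg (fun q : Y => q.1.2) e').symm) hψ.continuousOn
      (show p.1.2 ∈ _ from ⟨ho'.trans_le e.le, (p.2.2.2.trans_eq h2).trans_eq (a1 v rfl).symm⟩)
    by_cases e' : q.1.1 = p.1.1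
    · exact hq (Subtype.ext (Prod.ext e' ((a1 q e').symm.trans hq')))
    · exact e.ne ((a2 q e').symm.trans hq')

lemma tip (p : X) (h0 : 0 < p.1.2) (h1 : p.1.2 = σ p.1.1) : IsPreconnected ({p}ᶜ : Set X) := by
  refine IsInducing.subtypeVal.isPreconnected_image.1 (down (A := Subtype.val '' ({p}ᶜ : Set X))
    (a := -1) (b := 1) (by norm_num) (fun x hx => ⟨⟨_, spine good_σ hx⟩, fun e => h0.ne (congrArg (fun q : X => q.1.2) e), rfl⟩)
    ?_).2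
  rintro _ ⟨q, hq, rfl⟩
  refine ⟨q.2.1, q.2.2.1, fun y hy =>
    ⟨⟨(q.1.1, y), q.2.1, hy.1, hy.2.trans q.2.2.2⟩, fun e => hq ?_, rfl⟩⟩
  obtain ⟨e1, e2⟩ : q.1.1 = p.1.1 ∧ y = p.1.2 := Prod.ext_iff.1 (congrArg Subtype.val e)
  refine Subtype.ext (Prod.ext e1 (le_antisymm ?_ (e2 ▸ hy.2)))
  rw [h1, ← e1]
  exact q.2.2.2

lemma accY (q : Y) (h : ∀ U ∈ 𝓝 q, {p ∈ U | IsPreconnected ({p}ᶜ : Set Y)}.Infinite) :
    q.1 = (0, 0) := by
  have h0 : q.1.1 = 0 := by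
    by_contra hn
    have h1 := half_pos (q.2.1.1.lt_of_ne' hn)
    refine h {p | q.1.1 / 2 < p.1.1} ((isOpen_lt continuous_const (by fun_prop)).mem_nhds
      (half_lt_self (q.2.1.1.lt_of_ne' hn))) (Finite.of_finite_image (f := Subtype.val)
        (((fin_pow h1).image fun n => ((1 / 2 : ℝ) ^ n, (1 / 2 : ℝ) ^ n)).subset ?_)
        Subtype.val_injective.injOn)
    rintro _ ⟨p, ⟨h2, h3⟩, rfl⟩
    have h4 : p.1.2 = p.1.1 := by_contra fun h4 => cutY p (h1.trans h2) h4 h3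
    rcases τ_cases p.1.1 with e | ⟨n, e, -⟩
    · linarith [p.2.2.2, h1.trans h2]
    · exact ⟨n, (le_of_lt h2).trans_eq e, Prod.ext e.symm (h4.trans e).symm⟩
  exact Prod.ext h0 (le_antisymm (q.2.2.2.trans ((τ_le q.2.1.1).trans_eq h0)) q.2.2.1)

lemma accX (a : ℝ) (ha : a ∈ Icc (-1 : ℝ) 0)
    (h : ∀ n, σ (a + (1 / 2) ^ n) = (1 / 2) ^ n) (U : Set X)
    (hU : U ∈ 𝓝 (⟨(a, 0), spine good_σ ⟨ha.1, ha.2.trans zero_le_one⟩⟩ : X)) :
    {p ∈ U | IsPreconnected ({p}ᶜ : Set X)}.Infinite := by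
  have c0 : ∀ n, (0 : ℝ) < (1 / 2) ^ n := fun n => by positivity
  have c1 : ∀ n, (1 / 2 : ℝ) ^ n ≤ 1 := fun n => pow_le_one₀ (by norm_num) (by norm_num)
  let t : ℕ → X := fun n => ⟨(a + (1 / 2) ^ n, (1 / 2) ^ n),
    ⟨by linarith [ha.1, c0 n], by linarith [ha.2, c1 n]⟩, (c0 n).le, (h n).ge⟩
  have h1 := tendsto_pow_atTop_nhds_zero_of_lt_one (r := (1 / 2 : ℝ)) (by norm_num) (by norm_num)
  have h2 : Tendsto t atTop (𝓝 ⟨(a, 0), spine good_σ ⟨ha.1, ha.2.trans zero_le_one⟩⟩) :=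
    tendsto_subtype_rng.2 (Tendsto.prodMk_nhds (by simpa using h1.const_add a) h1)
  have h3 : Function.Injective t := fun m n e =>
    pow_right_injective₀ (by norm_num) (by norm_num) (congrArg (fun q : X => q.1.2) e)
  rw [← Nat.cofinite_eq_atTop] at h2
  refine ((infinite_of_finite_compl (h2 hU)).image h3.injOn).mono ?_
  rintro _ ⟨n, hn, rfl⟩
  exact ⟨hn, tip _ (c0 n) (h n).symm⟩

lemma not_homeo : IsEmpty (X ≃ₜ Y) := by
  refine ⟨fun e => ?_⟩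
  have key : ∀ q : X, (∀ U ∈ 𝓝 q, {p ∈ U | IsPreconnected ({p}ᶜ : Set X)}.Infinite) →
      (e q).1 = (0, 0) := fun q h => accY _ fun U hU => by
    refine ((h _ (e.continuous.continuousAt hU)).image e.injective.injOn).mono ?_
    rintro _ ⟨p, hp, rfl⟩
    refine ⟨hp.1, ?_⟩
    have := hp.2.image e e.continuous.continuousOn
    rwa [e.image_compl, image_singleton] at this
  have h1 := key _ (accX 0 (by norm_num) fun n => by
    rw [zero_add, σ_pos (by positivity), τ_pow])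
  have h2 := key _ (accX (-1) (by norm_num) fun n => by
    rw [σ_neg (by linarith [pow_le_one₀ (n := n) (show (0:ℝ) ≤ 1 / 2 by norm_num) (by norm_num)]),
      neg_add_cancel_comm, τ_pow])
  simpa using congrArg (fun q : X => q.1.1) (e.injective (Subtype.ext (h1.trans h2.symm)))

/-- Two non-homeomorphic curves, all of whose points have order at most four, with a monotonely
refinable map of one onto the other. -/
theorem result :
    ∃ (X Y : Type) (_ : MetricSpace X) (_ : MetricSpace Y),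
      CurveOfOrderLE X 4 ∧ CurveOfOrderLE Y 4 ∧ IsEmpty (X ≃ₜ Y) ∧
      ∃ r : X → Y, Continuous r ∧ Function.Surjective r ∧
        ∀ ε > 0, ∃ f : X → Y, Continuous f ∧ Function.Surjective f ∧
          (∀ y, IsConnected (f ⁻¹' {y}) ∧ Metric.diam (f ⁻¹' {y}) < ε) ∧
          ∀ x, dist (f x) (r x) < ε := by
  refine ⟨X, Y, inferInstance, inferInstance, curve (by norm_num) good_σ, curve one_pos good_τ,
    not_homeo, fun p => ⟨R p, R_mem p.2⟩, Continuous.subtype_mk (by unfold R; fun_prop) _,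
    fun q => ?_, fun ε hε => ?_⟩
  · rcases q.2.1.1.eq_or_lt with h | h
    · refine ⟨⟨(0, 0), spine good_σ (by norm_num)⟩, Subtype.ext (Prod.ext ?_ ?_)⟩
      · simpa [R] using h
      · simpa [R] using le_antisymm q.2.2.1 (q.2.2.2.trans ((τ_le q.2.1.1).trans_eq h.symm))
    · exact ⟨⟨q, YX q.2 h⟩, Subtype.ext (R_pos h.le (le_of_pos (YX q.2 h) h))⟩
  obtain ⟨N, hN⟩ := exists_pow_lt_of_lt_one hε (show (1 / 2 : ℝ) < 1 by norm_num)
  have c0 : (0 : ℝ) < (1 / 2) ^ N := by positivity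
  have c1 : (1 / 2 : ℝ) ^ N ≤ 1 := pow_le_one₀ (by norm_num) (by norm_num)
  let f : X → Y := fun p => ⟨F ((1 / 2) ^ N) p, F_mem N p.2⟩
  have hs : Function.Surjective f := fun q => by
    obtain ⟨p, hp, e⟩ := F_surj N q.2
    exact ⟨⟨p, hp⟩, Subtype.ext e⟩
  refine ⟨f, Continuous.subtype_mk (by unfold F; fun_prop) _, hs, fun q => ?_, fun p => ?_⟩
  · obtain ⟨p, rfl⟩ := hs q
    by_cases hp : p.1 ∈ K ((1 / 2) ^ N)
    · have h1 : Subtype.val '' (f ⁻¹' {f p}) = K ((1 / 2) ^ N) := by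
        refine Subset.antisymm ?_ fun q hq => ⟨⟨q, hq.1⟩, Subtype.ext
          ((F_mid _ hq.1 hq.2.1 hq.2.2.1 hq.2.2.2).trans
            (F_mid _ hp.1 hp.2.1 hp.2.2.1 hp.2.2.2).symm), rfl⟩
        rintro _ ⟨q, hq, rfl⟩
        exact (F_inj N q.2 p.2 (congrArg Subtype.val hq)).elim (fun e => e ▸ hp) id
      refine ⟨⟨⟨p, rfl⟩, IsInducing.subtypeVal.isPreconnected_image.1 ?_⟩,
        (diam_le_of_forall_dist_le c0.le fun a ha b hb => ?_).trans_lt hN⟩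
      · rw [h1]
        exact (down (A := K _) c0.le (fun x hx => ⟨spine good_σ ⟨by linarith [hx.1], hx.2.trans c1⟩, hx.1,
          hx.2, hx.1⟩) fun q hq => ⟨⟨hq.2.1, hq.2.2.1⟩, hq.1.2.1, fun y hy =>
            ⟨⟨hq.1.1, hy.1, hy.2.trans hq.1.2.2⟩, hq.2.1, hq.2.2.1, hy.2.trans hq.2.2.2⟩⟩).2
      · obtain ⟨a0, a1, a2, a3⟩ := h1.le ⟨a, ha, rfl⟩
        obtain ⟨b0, b1, b2, b3⟩ := h1.le ⟨b, hb, rfl⟩
        exact max_le (abs_le.2 ⟨by linarith, by linarith⟩)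
          (abs_le.2 ⟨by linarith [a0.2.1], by linarith [b0.2.1]⟩)
    · have h1 : f ⁻¹' {f p} = {p} := by
        refine Subset.antisymm (fun q hq => ?_) (singleton_subset_iff.2 rfl)
        exact Subtype.ext ((F_inj N p.2 q.2 (congrArg Subtype.val hq).symm).resolve_right hp).symm
      rw [h1, diam_singleton]
      exact ⟨isConnected_singleton, hε⟩
  · refine lt_of_le_of_lt (show dist (F _ p.1) (R p.1) ≤ _ from ?_) hN
    have h1 := p.2.1.1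
    have h2 := p.2.2.1
    rcases le_or_gt p.1.1 0 with h | h
    · rw [F_neg _ c0 p.2 h, R_neg p.2 h]
      have h3 := p.2.2.2.trans (good_σ.1 _).2
      exact max_le (abs_le.2 ⟨by nlinarith, by nlinarith⟩) (abs_le.2 ⟨by nlinarith, by nlinarith⟩)
    · have h3 := le_of_pos p.2 h
      rw [R_pos h.le h3]
      rcases le_or_gt p.1.1 ((1 / 2) ^ N) with h' | h'
      · rw [F_mid _ p.2 h.le h' h3]
        exact max_le (abs_le.2 ⟨by linarith, by linarith⟩) (abs_le.2 ⟨by linarith, by linarith⟩)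
      · rw [F_pos N p.2 h', dist_self]
        exact c0.le

end Pool.Agent.Results.MP_fdfd6d_gt.Combs
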